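import Pool.Agent.W181.RT.Props

/-! RT-T2 : `Θ_i` kills the multiples of the high coefficients of `W / D`. -/

set_option autoImplicit false

namespace Pool.Agent.W628.RT

open Pool.Agent.W181.RT

theorem Lam_monomial {R : Type} [CommRing R] (q : ℕ → R) (i : ℕ) (α : Fin i →₀ ℕ) (r : R) :
    Lam q i (MvPolynomial.monomial α r) = r * ∏ j, q (α j) := by
  have h : (MvPolynomial.monomial α r : MvPolynomial (Fin i) R)
      = r • (MvPolynomial.basisMonomials (Fin i) R α) := by
    rw [MvPolynomial.coe_basisMonomials, MvPolynomial.smul_monomial, smul_eq_mul, mul_one]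
  rw [h, map_smul, Lam, Module.Basis.constr_basis, smul_eq_mul]

/-- `L^{⊗ i}` kills the multiples of `∑_b W_b y_j^{k-b}`. -/
theorem Lam_kill {R : Type} [CommRing R] (q : ℕ → R) (i k : ℕ) (W : Polynomial R)
    (hW : ∀ s : ℕ, ∑ b ∈ Finset.range (k + 1), W.coeff b * q (k - b + s) = 0)
    (j : Fin i) (f : MvPolynomial (Fin i) R) :
    Lam q i (f * ∑ b ∈ Finset.range (k + 1), MvPolynomial.C (W.coeff b) *
      (MvPolynomial.X j : MvPolynomial (Fin i) R) ^ (k - b)) = 0 := by
  classical
  induction f using MvPolynomial.induction_on' with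
  | monomial α r =>
    have h1 : ∀ b ∈ Finset.range (k + 1),
        Lam q i (MvPolynomial.monomial α r * (MvPolynomial.C (W.coeff b) *
          (MvPolynomial.X j : MvPolynomial (Fin i) R) ^ (k - b)))
        = (r * ∏ m ∈ Finset.univ.erase j, q (α m)) * (W.coeff b * q (k - b + α j)) := by
      intro b _
      have e1 : (MvPolynomial.monomial α r * (MvPolynomial.C (W.coeff b) *
          (MvPolynomial.X j : MvPolynomial (Fin i) R) ^ (k - b)))
          = MvPolynomial.monomial (α + Finsupp.single j (k - b)) (r * W.coeff b) := by
        rw [MvPolynomial.X_pow_eq_monomial, MvPolynomial.C_mul_monomial, MvPolynomial.monomial_mul,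
          mul_one]
      rw [e1, Lam_monomial, ← Finset.mul_prod_erase Finset.univ _ (Finset.mem_univ j)]
      have e2 : ∏ m ∈ Finset.univ.erase j, q ((α + Finsupp.single j (k - b)) m)
          = ∏ m ∈ Finset.univ.erase j, q (α m) := by
        apply Finset.prod_congr rfl
        intro m hm
        have hm' : m ≠ j := Finset.ne_of_mem_erase hm
        rw [Finsupp.add_apply, Finsupp.single_eq_of_ne hm', add_zero]
      rw [e2, Finsupp.add_apply, Finsupp.single_eq_same, add_comm (α j)]
      ring
    rw [Finset.mul_sum, map_sum, Finset.sum_congr rfl h1, ← Finset.mul_sum, hW, mul_zero]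
  | add p q' hp hq =>
    rw [add_mul, map_add, hp, hq, add_zero]

theorem t (h : S_HD) : S_T2 := by
  intro R _ q i k W hk hW l g hl
  rcases Nat.eq_zero_or_pos i with hi | hi
  · subst hi
    have hD : Dp R 0 = 1 := by simp [Dp]
    have hinv : PowerSeries.invOfUnit (Dp R 0) 1 = 1 := by
      have := PowerSeries.mul_invOfUnit (Dp R 0) 1 (by rw [hD]; simp)
      rw [hD, one_mul] at this
      rw [hD, this]
    have h0 : PowerSeries.coeff l (XW 0 W) = 0 := by
      rw [XW, hinv, mul_one, Polynomial.coeff_coe, Polynomial.coeff_map, hk l (by omega), map_zero]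
    rw [h0, mul_zero, Th, map_zero, zero_mul, zero_mul, map_zero]
  · obtain ⟨cof, hcof⟩ := h R i hi
    set G : ℕ → MvPolynomial (Fin i) R :=
      fun m => ∑ j : Fin i, (MvPolynomial.X j : MvPolynomial (Fin i) R) ^ m * cof j with hG
    have hG0 : ∀ m, m + 1 < i → G m = 0 := by
      intro m hm
      have := hcof m
      rw [if_pos hm] at this
      exact this
    have hG1 : ∀ c, ey R i (PowerSeries.coeff c (PowerSeries.invOfUnit (Dp R i) 1)) * Vd R i
        = G (c + i - 1) := by
      intro c
      have := hcof (c + i - 1)
      rw [if_neg (by omega), show c + i - 1 + 1 - i = c by omega] at this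
      exact this.symm
    -- first the expansion
    have e1 : ey R i (PowerSeries.coeff l (XW i W)) * Vd R i
        = ∑ b ∈ Finset.range (l + 1), MvPolynomial.C (W.coeff b) * G (l + i - 1 - b) := by
      rw [XW, PowerSeries.coeff_mul, map_sum, Finset.sum_mul,
        Finset.Nat.sum_antidiagonal_eq_sum_range_succ_mk]
      apply Finset.sum_congr rfl
      intro b hb
      have hb' : b ≤ l := by
        have := Finset.mem_range.mp hb
        omega
      rw [Polynomial.coeff_coe, Polynomial.coeff_map, map_mul, mul_assoc, hG1,
        show l - b + i - 1 = l + i - 1 - b by omega]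
      congr 1
      rw [ey, MvPolynomial.aeval_C]
      rfl
    have e2 : ∑ b ∈ Finset.range (l + 1), MvPolynomial.C (W.coeff b) * G (l + i - 1 - b)
        = ∑ b ∈ Finset.range (k + 1), MvPolynomial.C (W.coeff b) * G (l + i - 1 - b) := by
      rcases le_total l k with hlk | hlk
      · apply Finset.sum_subset (Finset.range_mono (by omega))
        intro b hb hb'
        rw [Finset.mem_range] at hb hb'
        rw [hG0 _ (by omega), mul_zero]
      · symm
        apply Finset.sum_subset (Finset.range_mono (by omega))
        intro b hb hb'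
        rw [Finset.mem_range] at hb hb'
        rw [hk b (by omega), map_zero, zero_mul]
    have e3 : ∑ b ∈ Finset.range (k + 1), MvPolynomial.C (W.coeff b) * G (l + i - 1 - b)
        = ∑ j : Fin i, ((MvPolynomial.X j : MvPolynomial (Fin i) R) ^ (l + i - 1 - k) * cof j) *
          ∑ b ∈ Finset.range (k + 1), MvPolynomial.C (W.coeff b) *
            (MvPolynomial.X j : MvPolynomial (Fin i) R) ^ (k - b) := by
      simp only [hG, Finset.mul_sum]
      rw [Finset.sum_comm]
      apply Finset.sum_congr rfl
      intro j _
      apply Finset.sum_congr rfl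
      intro b hb
      have hb' : b ≤ k := by
        have := Finset.mem_range.mp hb
        omega
      rw [show l + i - 1 - b = (l + i - 1 - k) + (k - b) by omega, pow_add]
      ring
    rw [Th, map_mul (ey R i)]
    have e4 : ey R i g * ey R i (PowerSeries.coeff l (XW i W)) * Vd R i * yd R i
        = ∑ j : Fin i, ((ey R i g * yd R i) *
          ((MvPolynomial.X j : MvPolynomial (Fin i) R) ^ (l + i - 1 - k) * cof j)) *
          ∑ b ∈ Finset.range (k + 1), MvPolynomial.C (W.coeff b) *
            (MvPolynomial.X j : MvPolynomial (Fin i) R) ^ (k - b) := by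
      calc ey R i g * ey R i (PowerSeries.coeff l (XW i W)) * Vd R i * yd R i
          = (ey R i g * yd R i) * (ey R i (PowerSeries.coeff l (XW i W)) * Vd R i) := by ring
        _ = _ := by
          rw [e1, e2, e3, Finset.mul_sum]
          apply Finset.sum_congr rfl
          intro j _
          ring
    rw [e4, map_sum]
    apply Finset.sum_eq_zero
    intro j _
    exact Lam_kill q i k W hW j _

end Pool.Agent.W628.RT
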